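import Mathlib
import Pool.Agent.Q29.TE.Stm

/-!
# Project TE of helper29: the statement `S_FS`
-/

set_option linter.unusedVariables false
set_option linter.unusedSectionVars false

namespace Pool.Agent.Q204.TE

open Finset Module Pool.Agent.TH170.MF Pool.Agent.TH170.QC Pool.Agent.TH170.QE Pool.Agent.Y1.KN
  Pool.Agent.Y327.KN

section schur

variable {H X : Type} [Group H] [Fintype H] [MulAction H X] [Fintype X]

theorem trace_avg (v w : X → ℚ) :
    LinearMap.trace ℚ (X → ℚ) (Y327.KN.avg (G := H) v w) = Nat.card H * dot X w v := by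
  have h1 : ∀ γ : H, LinearMap.trace ℚ (X → ℚ)
      (((dot X).flip v ∘ₗ tr γ).smulRight (tr γ⁻¹ w)) = dot X w v := by
    intro γ
    rw [LinearMap.trace_smulRight]
    simp only [LinearMap.comp_apply]
    rw [tr_tr_inv]
    rfl
  unfold Y327.KN.avg
  rw [map_sum, sum_congr rfl fun γ _ => h1 γ, sum_const, nsmul_eq_mul, card_univ,
    Nat.card_eq_fintype_card]

/-- The scalars of the averaged matrix coefficients. -/
theorem avg_scalar {S : Submodule ℚ (X → ℚ)} (hS : Invariant H S) (hS0 : S ≠ ⊥)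
    (hscal : ∀ L : (X → ℚ) →ₗ[ℚ] (X → ℚ), (∀ (γ : H) u, L (tr γ u) = tr γ (L u)) →
      (∀ u, L u ∈ S) → ∃ r : ℚ, ∀ s ∈ S, L s = r • s)
    {v w s : X → ℚ} (hv : v ∈ S) (hw : w ∈ S) (hs : s ∈ S) :
    Y327.KN.avg (G := H) v w s = (Nat.card H * dot X w v / finrank ℚ S) • s := by
  obtain ⟨r, hr⟩ := hscal (Y327.KN.avg (G := H) v w) (fun γ u => avg_tr v w u γ)
    (fun u => avg_mem hS v hw u)
  have h1 : Y327.KN.avg (G := H) v w = r • proj S := by
    refine LinearMap.ext fun u => ?_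
    rw [← avg_proj hS hv, hr _ (proj_mem S u), LinearMap.smul_apply]
  have h2 := trace_avg (H := H) v w
  rw [h1, map_smul, trace_proj, smul_eq_mul] at h2
  have h3 : (finrank ℚ S : ℚ) ≠ 0 := by
    have : finrank ℚ S ≠ 0 := fun h => hS0 (Submodule.finrank_eq_zero.1 h)
    exact_mod_cast this
  rw [hr s hs, ← h2, mul_div_cancel_right₀ _ h3]

theorem sum_tr_sq {S : Submodule ℚ (X → ℚ)} (hS : Invariant H S) (hS0 : S ≠ ⊥)
    (hscal : ∀ L : (X → ℚ) →ₗ[ℚ] (X → ℚ), (∀ (γ : H) u, L (tr γ u) = tr γ (L u)) →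
      (∀ u, L u ∈ S) → ∃ r : ℚ, ∀ s ∈ S, L s = r • s)
    {u : X → ℚ} (hu : u ∈ S) :
    ∑ γ : H, dot X (tr γ⁻¹ u) (tr γ u) = Nat.card H / finrank ℚ S * dot X u u := by
  classical
  have he : ∀ y ∈ S, ∀ x, dot X y (proj S (Pi.single x 1)) = y x := by
    intro y hy x
    rw [← proj_symm, proj_of_mem S hy, dot_apply]
    simp [Pi.single_apply]
  have hexp : ∀ y ∈ S, y = ∑ x, y x • proj S (Pi.single x 1) := by
    intro y hy
    have h1 : y = ∑ x, y x • (Pi.single x 1 : X → ℚ) := by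
      funext z
      rw [Finset.sum_apply]
      simp [Pi.single_apply]
    calc y = proj S y := (proj_of_mem S hy).symm
      _ = proj S (∑ x, y x • (Pi.single x 1 : X → ℚ)) := by rw [← h1]
      _ = ∑ x, y x • proj S (Pi.single x 1) := by
        rw [map_sum]
        exact sum_congr rfl fun x _ => by rw [map_smul]
  have h1 : ∀ γ : H, dot X (tr γ⁻¹ u) (tr γ u) =
      ∑ x, dot X (dot X (tr γ u) (proj S (Pi.single x 1)) • tr γ⁻¹ u)
        (proj S (Pi.single x 1)) := by
    intro γ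
    have h2 := hexp _ (tr_mem hS γ hu)
    calc dot X (tr γ⁻¹ u) (tr γ u)
        = dot X (tr γ⁻¹ u) (∑ x, tr γ u x • proj S (Pi.single x 1)) := by rw [← h2]
      _ = ∑ x, dot X (dot X (tr γ u) (proj S (Pi.single x 1)) • tr γ⁻¹ u)
        (proj S (Pi.single x 1)) := by
        rw [map_sum]
        refine sum_congr rfl fun x _ => ?_
        rw [map_smul, he _ (tr_mem hS γ hu), map_smul, LinearMap.smul_apply]
  have h3 : ∀ x, ∑ γ : H, dot X (dot X (tr γ u) (proj S (Pi.single x 1)) • tr γ⁻¹ u)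
        (proj S (Pi.single x 1)) = Nat.card H / finrank ℚ S * (u x * u x) := by
    intro x
    have h4 : ∑ γ : H, dot X (dot X (tr γ u) (proj S (Pi.single x 1)) • tr γ⁻¹ u)
        (proj S (Pi.single x 1)) =
        dot X (Y327.KN.avg (G := H) (proj S (Pi.single x 1)) u u) (proj S (Pi.single x 1)) := by
      rw [avg_apply, map_sum, LinearMap.sum_apply]
    rw [h4, avg_scalar hS hS0 hscal (proj_mem S _) hu hu, map_smul, LinearMap.smul_apply,
      he u hu, smul_eq_mul]
    ring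
  rw [sum_congr rfl fun γ _ => h1 γ, sum_comm, sum_congr rfl fun x _ => h3 x, ← mul_sum,
    dot_apply]

/-- A group of odd order that acts with scalar endomorphisms fixes a vector. -/
theorem exists_fixed {S : Submodule ℚ (X → ℚ)} (hS : Invariant H S) (hS0 : S ≠ ⊥)
    (hscal : ∀ L : (X → ℚ) →ₗ[ℚ] (X → ℚ), (∀ (γ : H) u, L (tr γ u) = tr γ (L u)) →
      (∀ u, L u ∈ S) → ∃ r : ℚ, ∀ s ∈ S, L s = r • s) (hodd : Odd (Nat.card H)) :
    ∃ w ∈ S, w ≠ 0 ∧ ∀ γ : H, tr γ w = w := by
  obtain ⟨u, hu, hu0⟩ := Submodule.exists_mem_ne_zero_of_ne_bot hS0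
  refine ⟨∑ γ : H, tr γ u, S.sum_mem fun γ _ => tr_mem hS γ hu, ?_, ?_⟩
  · intro h0
    have h1 := sum_tr_sq hS hS0 hscal hu
    have h2 : ∀ γ : H, dot X (tr γ⁻¹ u) (tr γ u) = dot X u (tr (γ ^ 2) u) := by
      intro γ
      rw [dot_tr, inv_inv, tr_tr, pow_two]
    rw [sum_congr rfl fun γ _ => h2 γ] at h1
    have hcop : (Nat.card H).Coprime 2 := Nat.coprime_two_right.2 hodd
    have h3 : ∑ γ : H, dot X u (tr (γ ^ 2) u) = ∑ γ : H, dot X u (tr γ u) :=
      Equiv.sum_comp (powCoprime hcop) (fun γ : H => dot X u (tr γ u))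
    rw [h3, ← map_sum, h0, map_zero] at h1
    have h4 : (finrank ℚ S : ℚ) ≠ 0 := by
      have : finrank ℚ S ≠ 0 := fun h => hS0 (Submodule.finrank_eq_zero.1 h)
      exact_mod_cast this
    have h5 : (Nat.card H : ℚ) ≠ 0 := by
      have : Nat.card H ≠ 0 := Nat.card_pos.ne'
      exact_mod_cast this
    rcases mul_eq_zero.1 h1.symm with h6 | h6
    · exact (div_ne_zero h5 h4) h6
    · exact hu0 (dot_self h6)
  · intro γ
    rw [map_sum]
    rw [← Equiv.sum_comp (Equiv.mulRight γ) (fun δ : H => tr δ u)]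
    refine sum_congr rfl fun δ _ => ?_
    rw [tr_tr, Equiv.coe_mulRight]

end schur

theorem t_FS : Pool.Agent.Q29.TE.S_FS := by
  classical
  intro G X _ _ _ _ _ _ c hcc hcen hfree S hSm hed k hcard hk
  obtain ⟨hS0, hS, hSo, hmin⟩ := id hSm
  -- `c ≠ 1`
  have hc1 : c ≠ 1 := by
    rintro rfl
    obtain ⟨u, hu, hu0⟩ := Submodule.exists_mem_ne_zero_of_ne_bot hS0
    obtain ⟨x, hx⟩ : ∃ x, u x ≠ 0 := by
      by_contra h
      push Not at h
      exact hu0 (funext h)
    exact hfree x (one_smul _ _)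
  -- the subgroup generated by `c`
  let C : Subgroup G := Subgroup.zpowers c
  have hCmem : ∀ n ∈ C, n = 1 ∨ n = c := by
    intro n hn
    obtain ⟨i, rfl⟩ := Subgroup.mem_zpowers_iff.1 hn
    have h2 : c ^ (2 : ℤ) = 1 := by
      rw [zpow_two]
      exact hcc
    rcases Int.even_or_odd' i with ⟨j, hj | hj⟩
    · left
      rw [hj, zpow_mul, h2, one_zpow]
    · right
      rw [hj, zpow_add, zpow_mul, h2, one_zpow, one_mul, zpow_one]
  have hCn : C.Normal := by
    constructor
    intro n hn g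
    have h1 : g * n * g⁻¹ = n := by
      rcases hCmem n hn with rfl | rfl
      · group
      · rw [← hcen g, mul_assoc, mul_inv_cancel, mul_one]
    rw [h1]
    exact hn
  have hord : orderOf c = 2 := orderOf_eq_prime (by rw [pow_two, hcc]) hc1
  have hCcard : Nat.card C = 2 := by
    rw [Nat.card_zpowers, hord]
  have hidx : C.index = k := by
    have h := C.card_mul_index
    rw [hCcard, hcard] at h
    exact Nat.eq_of_mul_eq_mul_left (by norm_num) h
  obtain ⟨H, hH⟩ := Subgroup.exists_left_complement'_of_coprime (N := C)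
    (by rw [hCcard, hidx]; exact Nat.coprime_two_left.2 hk)
  have hHcard : Nat.card H = k := by
    have h := hH.card_mul_card
    rw [hCcard, hcard, mul_comm] at h
    exact Nat.eq_of_mul_eq_mul_left (by norm_num) h
  have hHodd : Odd (Nat.card H) := by rw [hHcard]; exact hk
  have hdec : ∀ g : G, ∃ h ∈ H, g = h ∨ g = h * c := by
    intro g
    obtain ⟨⟨⟨h, hh⟩, ⟨n, hn⟩⟩, hg⟩ := hH.2 g
    change h * n = g at hg
    refine ⟨h, hh, ?_⟩
    rcases hCmem n hn with rfl | rfl
    · left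
      rw [← hg, mul_one]
    · right
      exact hg.symm
  have htrc : ∀ s ∈ S, (tr c s : X → ℚ) = -s := by
    intro s hs
    funext x
    exact hSo s hs x
  have hSH : Invariant H S := fun γ s hs => hS γ.1 s hs
  have hscal : ∀ L : (X → ℚ) →ₗ[ℚ] (X → ℚ), (∀ (γ : H) u, L (tr γ u) = tr γ (L u)) →
      (∀ u, L u ∈ S) → ∃ r : ℚ, ∀ s ∈ S, L s = r • s := by
    intro L hL hLS
    have hmem : L ∘ₗ S.subtype ∈ homs G S S := by
      refine ⟨fun s => hLS s, ?_⟩
      intro γ s t hst x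
      have h1 : (t : X → ℚ) = tr γ (s : X → ℚ) := funext hst
      have h2 : L (tr γ (s : X → ℚ)) = tr γ (L s) := by
        obtain ⟨h, hh, rfl | rfl⟩ := hdec γ
        · exact hL ⟨γ, hh⟩ s
        · have h5 : L (tr h (s : X → ℚ)) = tr h (L s) := hL ⟨h, hh⟩ s
          rw [← tr_tr, ← tr_tr, htrc _ (tr_mem hS h s.2), map_neg, h5,
            htrc _ (tr_mem hS h (hLS s))]
      change L (t : X → ℚ) x = L (s : X → ℚ) (γ • x)
      rw [h1, h2]
      rfl
    have hid : S.subtype ∈ homs G S S := ⟨fun s => s.2, fun γ s t h x => h x⟩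
    have hne : (⟨S.subtype, hid⟩ : homs G S S) ≠ 0 := by
      intro h
      have h1 : S.subtype = 0 := congrArg Subtype.val h
      apply hS0
      rw [eq_bot_iff]
      intro s hs
      exact congrArg (fun F => F ⟨s, hs⟩) h1
    have hed' : finrank ℚ (homs G S S) = 1 := hed
    have hkey := (finrank_eq_one_iff_of_nonzero' (K := ℚ) (V := homs G S S)
      ⟨S.subtype, hid⟩ hne).1 hed'
    obtain ⟨r, hr⟩ := hkey ⟨_, hmem⟩
    refine ⟨r, fun s hs => ?_⟩
    have h1 : r • S.subtype = L ∘ₗ S.subtype := congrArg Subtype.val hr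
    exact (congrArg (fun F => F ⟨s, hs⟩) h1).symm
  obtain ⟨w, hw, hw0, hfix⟩ := exists_fixed hSH hS0 hscal hHodd
  have hinv : Invariant G (Submodule.span ℚ {w}) := by
    intro γ s hs
    obtain ⟨a, rfl⟩ := Submodule.mem_span_singleton.1 hs
    have h1 : tr γ w = w ∨ tr γ w = -w := by
      obtain ⟨h, hh, rfl | rfl⟩ := hdec γ
      · exact Or.inl (hfix ⟨γ, hh⟩)
      · right
        rw [← tr_tr]
        have h2 : tr h w = w := hfix ⟨h, hh⟩
        rw [h2, htrc w hw]
    have h3 : (fun x => (a • w) (γ • x)) = a • tr γ w := rfl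
    rw [h3]
    rcases h1 with h1 | h1
    · rw [h1]
      exact Submodule.smul_mem _ _ (Submodule.mem_span_singleton_self w)
    · rw [h1]
      exact Submodule.smul_mem _ _ (Submodule.neg_mem _ (Submodule.mem_span_singleton_self w))
  rcases hmin _ hinv ((Submodule.span_singleton_le_iff_mem w S).2 hw) with h | h
  · exact absurd (Submodule.span_singleton_eq_bot.1 h) hw0
  · rw [← h]
    exact finrank_span_singleton hw0

end Pool.Agent.Q204.TE
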