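import Mathlib
import Pool.Agent.Q29.TE.Stm

/-!
# Project TE of helper29: the statement `S_NUM`
-/

set_option linter.unusedVariables false
set_option linter.unusedSectionVars false

namespace Pool.Agent.Q204.TE

open Real

theorem pow_mul_le {s : ℝ} (hs0 : 0 ≤ s) (hs : s ≤ 1 / 4) {c : ℕ} (hc : 3 ≤ c) :
    (c : ℝ) * s ^ (c - 3) ≤ 64 := by
  obtain ⟨k, rfl⟩ : ∃ k, c = 3 + k := ⟨c - 3, by omega⟩
  rw [show 3 + k - 3 = k by omega]
  have h1 : s ^ k ≤ (1 / 4 : ℝ) ^ k := pow_le_pow_left₀ hs0 hs k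
  have h2 : ((3 + k : ℕ) : ℝ) ≤ 64 * 4 ^ k := by
    have h3 : 3 + k ≤ 64 * 4 ^ k := by
      have h4 : k < 4 ^ k := Nat.lt_pow_self (by norm_num)
      omega
    exact_mod_cast h3
  calc ((3 + k : ℕ) : ℝ) * s ^ k ≤ (64 * 4 ^ k) * (1 / 4 : ℝ) ^ k := by gcongr
    _ = 64 * ((4 : ℝ) * (1 / 4)) ^ k := by rw [mul_pow]; ring
    _ = 64 := by norm_num

/-- the case of the condition of `boundB` -/
theorem caseOne (d h e c : ℕ) (w ℓ lg L N : ℝ) (hw : 1 ≤ w) (hℓ : 1 ≤ ℓ) (hlg0 : 0 ≤ lg)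
    (hlg : lg ≤ 2 * ℓ) (hL0 : 0 ≤ L) (he : 1 ≤ e) (heh : e ≤ h) (hhd : h ≤ d)
    (hc : c = e + (d - h)) (hc3 : 3 ≤ c)
    (hcond : (10 ^ 4 + 10 * L) ^ 2 * lg * d ≤ 4 * w)
    (hN : N ≤ √(32 * lg * d / w) ^ c) :
    N ≤ 32768 * ℓ ^ 2 * ((h * d / e) / (w * √w)) := by
  have hw0 : 0 < w := by linarith
  have hsw0 : 0 < √w := Real.sqrt_pos.2 hw0
  have he' : (1 : ℝ) ≤ e := by exact_mod_cast he
  have hh' : (1 : ℝ) ≤ h := by exact_mod_cast he.trans heh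
  have hd' : (1 : ℝ) ≤ d := by exact_mod_cast (he.trans heh).trans hhd
  have heh' : (e : ℝ) ≤ h := by exact_mod_cast heh
  have hhd' : (h : ℝ) ≤ d := by exact_mod_cast hhd
  obtain ⟨x, hx⟩ : ∃ x : ℝ, x = 32 * lg * d / w := ⟨_, rfl⟩
  rw [← hx] at hN
  have hx0 : 0 ≤ x := by rw [hx]; positivity
  have h10 : (10 : ℝ) ^ 8 * (lg * d) ≤ 4 * w := by
    have h1 : (10 : ℝ) ^ 8 ≤ (10 ^ 4 + 10 * L) ^ 2 := by
      have : (10 : ℝ) ^ 4 ≤ 10 ^ 4 + 10 * L := by linarith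
      calc (10 : ℝ) ^ 8 = (10 ^ 4) ^ 2 := by norm_num
        _ ≤ _ := pow_le_pow_left₀ (by norm_num) this 2
    have h2 : 0 ≤ lg * d := by positivity
    calc (10 : ℝ) ^ 8 * (lg * d) ≤ (10 ^ 4 + 10 * L) ^ 2 * (lg * d) :=
          mul_le_mul_of_nonneg_right h1 h2
      _ = (10 ^ 4 + 10 * L) ^ 2 * lg * d := by ring
      _ ≤ 4 * w := hcond
  have hx1 : x ≤ (1 / 4) ^ 2 := by
    rw [hx, div_le_iff₀ hw0]
    have : 0 ≤ lg * d := by positivity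
    linarith
  obtain ⟨s, hs⟩ : ∃ s : ℝ, s = √x := ⟨_, rfl⟩
  rw [← hs] at hN
  have hs0 : 0 ≤ s := by rw [hs]; exact Real.sqrt_nonneg _
  have hs1 : s ≤ 1 / 4 := by
    rw [hs]
    exact Real.sqrt_le_iff.2 ⟨by norm_num, hx1⟩
  have hss : s * s = x := by rw [hs]; exact Real.mul_self_sqrt hx0
  obtain ⟨q, hq⟩ : ∃ q : ℝ, q = √(d : ℝ) := ⟨_, rfl⟩
  have hq0 : 0 ≤ q := by rw [hq]; exact Real.sqrt_nonneg _
  have hqq : q * q = d := by rw [hq]; exact Real.mul_self_sqrt (by linarith)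
  have hq1 : 1 ≤ q := by nlinarith
  -- `s ≤ 8 ℓ √d / √w`
  have hs2 : s ≤ 8 * ℓ * q / √w := by
    have h1 : s ^ 2 ≤ (8 * ℓ * q / √w) ^ 2 := by
      rw [sq, hss, hx, div_pow, Real.sq_sqrt hw0.le]
      apply div_le_div_of_nonneg_right _ hw0.le
      have h2 : ℓ * 1 ≤ ℓ * ℓ := by
        apply mul_le_mul_of_nonneg_left _ (by positivity)
        exact hℓ
      calc 32 * lg * d ≤ 32 * (2 * ℓ) * d := by gcongr
        _ = 64 * (ℓ * 1) * d := by ring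
        _ ≤ 64 * (ℓ * ℓ) * d := by gcongr
        _ = (8 * ℓ * q) ^ 2 := by rw [← hqq]; ring
    exact (sq_le_sq₀ hs0 (by positivity)).1 h1
  have hx2 : x ≤ 64 * ℓ * d / w := by
    rw [hx]
    apply div_le_div_of_nonneg_right _ hw0.le
    calc 32 * lg * d ≤ 32 * (2 * ℓ) * d := by gcongr
      _ = 64 * ℓ * d := by ring
  have hs3 : s ^ 3 ≤ 512 * ℓ ^ 2 * d * q / (w * √w) := by
    calc s ^ 3 = x * s := by rw [← hss]; ring
      _ ≤ (64 * ℓ * d / w) * (8 * ℓ * q / √w) := by gcongr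
      _ = 512 * ℓ ^ 2 * d * q / (w * √w) := by
        rw [div_mul_div_comm]; ring
  have hsm := pow_mul_le hs0 hs1 hc3
  have hsp0 : 0 ≤ s ^ (c - 3) := by positivity
  have hc' : (c : ℝ) = e + (d - h) := by
    rw [hc]
    push_cast [Nat.cast_sub hhd]
    ring
  have hhe1 : 1 ≤ (h : ℝ) / e := by
    rw [le_div_iff₀ (by linarith)]
    linarith
  have hmain : q * s ^ (c - 3) ≤ 64 * (h / e) := by
    rcases le_or_gt ((e : ℝ) * q) h with h1 | h1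
    · have h2 : q ≤ h / e := by
        rw [le_div_iff₀ (by linarith)]
        linarith
      have h3 : s ^ (c - 3) ≤ 1 := pow_le_one₀ hs0 (by linarith)
      calc q * s ^ (c - 3) ≤ (h / e) * 1 := by gcongr
        _ ≤ 64 * (h / e) := by linarith
    · have h2 : q ≤ c := by
        rw [hc']
        have h3 : 0 ≤ (q - 1) * (d - h) := mul_nonneg (by linarith) (by linarith)
        have h4 : q * q ≤ q * (e + (d - h)) := by
          rw [hqq]
          nlinarith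
        exact le_of_mul_le_mul_left h4 (by linarith)
      calc q * s ^ (c - 3) ≤ c * s ^ (c - 3) := by gcongr
        _ ≤ 64 := hsm
        _ ≤ 64 * (h / e) := by linarith
  calc N ≤ s ^ c := hN
    _ = s ^ 3 * s ^ (c - 3) := by rw [← pow_add]; congr 1; omega
    _ ≤ (512 * ℓ ^ 2 * d * q / (w * √w)) * s ^ (c - 3) := by gcongr
    _ = (512 * ℓ ^ 2 * d / (w * √w)) * (q * s ^ (c - 3)) := by ring
    _ ≤ (512 * ℓ ^ 2 * d / (w * √w)) * (64 * (h / e)) := by gcongr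
    _ = 32768 * ℓ ^ 2 * ((h * d / e) / (w * √w)) := by ring

/-- `ρ ≤ 2 ^ ρ` -/
theorem le_two_rpow {ρ : ℝ} (hρ : 0 ≤ ρ) : ρ ≤ (2 : ℝ) ^ ρ := by
  have h1 : (2 : ℝ) ^ ρ = Real.exp (Real.log 2 * ρ) := by
    rw [Real.rpow_def_of_pos (by norm_num)]
  have h2 := Real.add_one_le_exp (Real.log 2 * ρ - 1)
  have h3 : Real.exp (Real.log 2 * ρ) = Real.exp (Real.log 2 * ρ - 1) * Real.exp 1 := by
    rw [← Real.exp_add]
    ring_nf
  have h4 := Real.exp_one_gt_d9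
  have h5 := Real.log_two_gt_d9
  rw [h1, h3]
  have h6 : Real.log 2 * ρ ≤ Real.exp (Real.log 2 * ρ - 1) := by linarith
  have h7 : 0 ≤ Real.log 2 * ρ := by positivity
  calc ρ ≤ (Real.log 2 * ρ) * 2.7 := by nlinarith
    _ ≤ Real.exp (Real.log 2 * ρ - 1) * Real.exp 1 := by
      apply mul_le_mul h6 (by linarith) (by norm_num) (Real.exp_pos _).le

/-- the second estimate -/
theorem pow_small (h d : ℕ) (ρ ℓ ε N : ℝ) (hh : 1 ≤ h) (hd : 1 ≤ d) (hρ : ρ = d / h)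
    (hρ2 : 2 ≤ ρ) (hℓ : 1 ≤ ℓ) (hε0 : 0 ≤ ε) (hε : ε * (20000 * ℓ) ≤ 1)
    (hN : N ≤ (10 ^ 4 * ρ * ℓ ^ 2) ^ h * (4 / (10 ^ 4 * ρ * ℓ ^ 2) + ε) ^ d) :
    N ≤ (1 / 20) ^ d := by
  have hh' : (1 : ℝ) ≤ h := by exact_mod_cast hh
  have hd' : (1 : ℝ) ≤ d := by exact_mod_cast hd
  obtain ⟨P, hP⟩ : ∃ P : ℝ, P = 10 ^ 4 * ρ * ℓ ^ 2 := ⟨_, rfl⟩
  rw [← hP] at hN
  have hℓ2 : 1 ≤ ℓ ^ 2 := one_le_pow₀ hℓ
  have hP4 : 10 ^ 4 ≤ P := by
    rw [hP]
    have : 1 ≤ ρ * ℓ ^ 2 := by nlinarith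
    linarith
  have hP0 : 0 < P := by linarith
  obtain ⟨t, ht⟩ : ∃ t : ℝ, t = P ^ ((h : ℝ) / d) := ⟨_, rfl⟩
  have hdh : (h : ℝ) / d = 1 / ρ := by
    rw [hρ, one_div_div]
  have ht0 : 0 ≤ t := by rw [ht]; exact Real.rpow_nonneg hP0.le _
  have htd : t ^ d = P ^ h := by
    rw [ht, ← Real.rpow_natCast, ← Real.rpow_mul hP0.le, div_mul_cancel₀ _ (by linarith),
      Real.rpow_natCast]
  have hρi : 1 / ρ ≤ 1 / 2 := one_div_le_one_div_of_le (by norm_num) hρ2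
  have hρi0 : 0 ≤ 1 / ρ := by positivity
  -- `t ≤ 200 ℓ`
  have ht1 : t ≤ 200 * ℓ := by
    have h1 : P = (10 ^ 4 * ℓ ^ 2) * ρ := by rw [hP]; ring
    rw [ht, hdh, h1, Real.mul_rpow (by positivity) (by linarith)]
    have h2 : (10 ^ 4 * ℓ ^ 2 : ℝ) ^ (1 / ρ) ≤ 100 * ℓ := by
      calc (10 ^ 4 * ℓ ^ 2 : ℝ) ^ (1 / ρ) ≤ (10 ^ 4 * ℓ ^ 2 : ℝ) ^ (1 / 2 : ℝ) := by
            apply Real.rpow_le_rpow_of_exponent_le _ hρi
            linarith
        _ = ((100 * ℓ) ^ 2) ^ (1 / 2 : ℝ) := by congr 1; ring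
        _ = 100 * ℓ := by
            rw [← Real.sqrt_eq_rpow, Real.sqrt_sq (by linarith)]
    have h3 : ρ ^ (1 / ρ) ≤ 2 := by
      calc ρ ^ (1 / ρ) ≤ ((2 : ℝ) ^ ρ) ^ (1 / ρ) :=
            Real.rpow_le_rpow (by linarith) (le_two_rpow (by linarith)) hρi0
        _ = 2 := by
            rw [← Real.rpow_mul (by norm_num), mul_one_div_cancel (by linarith), Real.rpow_one]
    calc (10 ^ 4 * ℓ ^ 2 : ℝ) ^ (1 / ρ) * ρ ^ (1 / ρ) ≤ (100 * ℓ) * 2 := by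
          apply mul_le_mul h2 h3 (Real.rpow_nonneg (by linarith) _) (by linarith)
      _ = 200 * ℓ := by ring
  -- `t * (4 / P) ≤ 4 / 100`
  have ht2 : t * (4 / P) ≤ 4 / 100 := by
    have h1 : t ≤ √P := by
      rw [ht, hdh, Real.sqrt_eq_rpow]
      exact Real.rpow_le_rpow_of_exponent_le (by linarith) hρi
    have h2 : 100 ≤ √P := by
      apply Real.le_sqrt_of_sq_le
      linarith
    have h3 : √P * √P = P := Real.mul_self_sqrt hP0.le
    calc t * (4 / P) ≤ √P * (4 / P) := by gcongr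
      _ = 4 / √P := by
        rw [eq_div_iff (by positivity)]
        calc √P * (4 / P) * √P = (√P * √P) * (4 / P) := by ring
          _ = 4 := by rw [h3]; field_simp
      _ ≤ 4 / 100 := by
        apply div_le_div_of_nonneg_left (by norm_num) (by norm_num) h2
  have ht3 : t * ε ≤ 1 / 100 := by
    have h1 : t * ε ≤ 200 * ℓ * ε := by gcongr
    linarith
  have h4 : 0 ≤ 4 / P + ε := by positivity
  calc N ≤ P ^ h * (4 / P + ε) ^ d := hN
    _ = (t * (4 / P + ε)) ^ d := by rw [mul_pow, htd]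
    _ ≤ (1 / 20) ^ d := by
      apply pow_le_pow_left₀ (by positivity)
      rw [mul_add]
      linarith

theorem t_NUM : Pool.Agent.Q29.TE.S_NUM := by
  intro C₅ hC₅
  refine ⟨10 ^ 12 + 4 * 10 ^ 8 * C₅, by positivity, ?_⟩
  intro g m d h e c n Gc N hn hm hh hhd hdg he heh hhe hc hc3 hGc1 hGc2 hb hN hA hP hK
  have hg3 : 3 ≤ g := by omega
  have hg' : (3 : ℝ) ≤ g := by exact_mod_cast hg3
  have hm' : (1 : ℝ) ≤ m := by exact_mod_cast hm
  have hn' : (1 : ℝ) ≤ n := by exact_mod_cast hn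
  have hn4 : (1 : ℝ) ≤ (n : ℝ) ^ 4 := one_le_pow₀ hn'
  have hd' : (1 : ℝ) ≤ d := by exact_mod_cast hh.trans hhd
  have hh' : (1 : ℝ) ≤ h := by exact_mod_cast hh
  have he' : (1 : ℝ) ≤ e := by exact_mod_cast he
  have heh' : (e : ℝ) ≤ h := by exact_mod_cast heh
  have hdg' : (d : ℝ) ≤ g := by exact_mod_cast hdg
  have hhd' : (h : ℝ) ≤ d := by exact_mod_cast hhd
  obtain ⟨w, hw⟩ : ∃ w : ℝ, w = (m : ℝ) * g := ⟨_, rfl⟩
  have hwc : ((m * g : ℕ) : ℝ) = w := by rw [hw]; push_cast; ring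
  rw [← hw] at hK hP
  rw [← hw]
  have hgw : (g : ℝ) ≤ w := by
    rw [hw]
    exact le_mul_of_one_le_left (by linarith) hm'
  have hw3 : 3 ≤ w := by linarith
  have hw1 : 1 ≤ w := by linarith
  have hw0 : 0 < w := by linarith
  have hsw0 : 0 < √w := Real.sqrt_pos.2 hw0
  have hsww : √w * √w = w := Real.mul_self_sqrt hw0.le
  have hsw1 : 1 ≤ √w := Real.one_le_sqrt.2 hw1
  obtain ⟨ℓ, hℓ⟩ : ∃ ℓ : ℝ, ℓ = 1 + Real.log w := ⟨_, rfl⟩
  rw [← hℓ]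
  have hlw0 : 0 ≤ Real.log w := Real.log_nonneg hw1
  have hℓ1 : 1 ≤ ℓ := by linarith
  have hlogg : Real.log g ≤ ℓ - 1 := by
    have h1 := Real.log_le_log (by linarith) hgw
    linarith
  have hlogg0 : 0 ≤ Real.log g := Real.log_nonneg (by linarith)
  have hlogd : Real.log d ≤ ℓ - 1 := by
    have h1 := Real.log_le_log (by linarith) hdg'
    linarith
  have hlogd0 : 0 ≤ Real.log d := Real.log_nonneg hd'
  have hl2 := Real.log_two_lt_d9
  have hl2' := Real.log_two_gt_d9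
  -- the form of the target
  obtain ⟨R, hR⟩ : ∃ R : ℝ, R = ((h : ℝ) * d / e) / (w * √w) := ⟨_, rfl⟩
  have hR0 : 0 < R := by rw [hR]; positivity
  have htar : (10 ^ 12 + 4 * 10 ^ 8 * C₅) * (n : ℝ) ^ 4 * (h * d / (e * w)) * (ℓ ^ 21 / √w) =
      (10 ^ 12 + 4 * 10 ^ 8 * C₅) * (n : ℝ) ^ 4 * ℓ ^ 21 * R := by
    rw [hR]
    field_simp
  rw [htar]
  have hhde : 1 ≤ (h : ℝ) * d / e := by
    rw [le_div_iff₀ (by linarith), one_mul]
    exact heh'.trans (le_mul_of_one_le_right (by linarith) hd')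
  have hRlow : 1 / (w * √w) ≤ R := by
    rw [hR]
    apply div_le_div_of_nonneg_right hhde (by positivity)
  have hlow : ∀ (a : ℝ) (k : ℕ), 0 ≤ a → a ≤ 10 ^ 12 → k ≤ 21 →
      a * ℓ ^ k * R ≤ (10 ^ 12 + 4 * 10 ^ 8 * C₅) * (n : ℝ) ^ 4 * ℓ ^ 21 * R := by
    intro a k ha0 ha hk
    have h1 : ℓ ^ k ≤ ℓ ^ 21 := pow_le_pow_right₀ hℓ1 hk
    have h2 : a ≤ (10 ^ 12 + 4 * 10 ^ 8 * C₅) * (n : ℝ) ^ 4 := by
      calc a ≤ 10 ^ 12 + 4 * 10 ^ 8 * C₅ := by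
            have : 0 ≤ 4 * 10 ^ 8 * C₅ := by positivity
            linarith
        _ ≤ (10 ^ 12 + 4 * 10 ^ 8 * C₅) * (n : ℝ) ^ 4 := le_mul_of_one_le_right (by positivity) hn4
    gcongr
  -- the case of a small `m`
  have hsmall : (m : ℝ) ≤ 4 * 10 ^ 8 * ℓ ^ 5 →
      N ≤ (10 ^ 12 + 4 * 10 ^ 8 * C₅) * (n : ℝ) ^ 4 * ℓ ^ 21 * R := by
    intro hms
    have h1 : C₅ * (n : ℝ) ^ 2 * (h * d / (e * g)) * ((1 + Real.log g) ^ 16 / √w) =
        C₅ * (n : ℝ) ^ 2 * (1 + Real.log g) ^ 16 * m * R := by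
      rw [hR, hw]
      field_simp
    rw [h1] at hK
    refine hK.trans ?_
    apply mul_le_mul_of_nonneg_right _ hR0.le
    have h2 : (1 + Real.log g) ^ 16 ≤ ℓ ^ 16 := by
      apply pow_le_pow_left₀ (by linarith)
      linarith
    have h3 : (n : ℝ) ^ 2 ≤ (n : ℝ) ^ 4 := pow_le_pow_right₀ hn' (by norm_num)
    calc C₅ * (n : ℝ) ^ 2 * (1 + Real.log g) ^ 16 * m
        ≤ C₅ * (n : ℝ) ^ 4 * ℓ ^ 16 * (4 * 10 ^ 8 * ℓ ^ 5) := by
          have : 0 ≤ (1 + Real.log g) ^ 16 := by positivity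
          gcongr
      _ = (4 * 10 ^ 8 * C₅) * (n : ℝ) ^ 4 * ℓ ^ 21 := by ring
      _ ≤ (10 ^ 12 + 4 * 10 ^ 8 * C₅) * (n : ℝ) ^ 4 * ℓ ^ 21 := by
          gcongr
          linarith
  -- the case of a large `n`
  rcases le_or_gt w ((n : ℝ) ^ 2) with hng | hng
  · have h1 : w * √w ≤ (n : ℝ) ^ 4 := by
      calc w * √w ≤ w * w := by
            apply mul_le_mul_of_nonneg_left _ hw0.le
            calc √w ≤ √w * √w := le_mul_of_one_le_left hsw0.le hsw1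
              _ = w := hsww
        _ ≤ (n : ℝ) ^ 2 * (n : ℝ) ^ 2 := by gcongr
        _ = (n : ℝ) ^ 4 := by ring
    have h2 : 1 ≤ (n : ℝ) ^ 4 * R := by
      calc (1 : ℝ) = (w * √w) * (1 / (w * √w)) := by field_simp
        _ ≤ (n : ℝ) ^ 4 * R := by gcongr
    have h3 : 1 ≤ (10 ^ 12 + 4 * 10 ^ 8 * C₅) * ℓ ^ 21 := by
      have h4 : 1 ≤ ℓ ^ 21 := one_le_pow₀ hℓ1
      have h5 : 1 ≤ 10 ^ 12 + 4 * 10 ^ 8 * C₅ := by
        have : 0 ≤ 4 * 10 ^ 8 * C₅ := by positivity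
        linarith
      exact one_le_mul_of_one_le_of_one_le h5 h4
    calc N ≤ 1 := hN
      _ ≤ (10 ^ 12 + 4 * 10 ^ 8 * C₅) * ℓ ^ 21 * ((n : ℝ) ^ 4 * R) :=
        one_le_mul_of_one_le_of_one_le h3 h2
      _ = (10 ^ 12 + 4 * 10 ^ 8 * C₅) * (n : ℝ) ^ 4 * ℓ ^ 21 * R := by ring
  -- logarithms
  obtain ⟨L, hL⟩ : ∃ L : ℝ, L = Real.log ((Gc * n : ℕ) : ℝ) := ⟨_, rfl⟩
  rw [← hL] at hA hP
  have hGc0 : 1 ≤ Gc := by omega
  have hGc' : (1 : ℝ) ≤ Gc := by exact_mod_cast hGc0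
  have hL' : L = Real.log Gc + Real.log n := by
    rw [hL, Nat.cast_mul, Real.log_mul (by positivity) (by positivity)]
  have hlogn0 : 0 ≤ Real.log n := Real.log_nonneg hn'
  have hL0 : 0 ≤ L := by
    rw [hL']
    have := Real.log_nonneg hGc'
    positivity
  have hlogn : Real.log n ≤ ℓ / 2 := by
    have h1 := Real.log_le_log (by positivity) hng.le
    rw [Real.log_pow] at h1
    push_cast at h1
    linarith
  have hlog2g : Real.log (2 * g) ≤ ℓ := by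
    rw [Real.log_mul (by norm_num) (by positivity)]
    linarith
  have hlog2g0 : 0 ≤ Real.log (2 * g) := Real.log_nonneg (by linarith)
  have hlogG : ∀ b : ℕ, Gc ≤ (2 * g) ^ b → Real.log Gc ≤ b * ℓ := by
    intro b h1
    have h2 : (Gc : ℝ) ≤ (2 * g) ^ b := by exact_mod_cast h1
    calc Real.log Gc ≤ Real.log ((2 * g) ^ b) := Real.log_le_log (by linarith) h2
      _ = b * Real.log (2 * g) := by rw [Real.log_pow]
      _ ≤ b * ℓ := by gcongr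
  have hlg0 : 0 ≤ Real.log (4 * d) := Real.log_nonneg (by linarith)
  have hlg : Real.log (4 * d) ≤ 2 * ℓ := by
    have h1 : Real.log (4 * d) = 2 * Real.log 2 + Real.log d := by
      rw [Real.log_mul (by norm_num) (by positivity), show (4 : ℝ) = 2 ^ 2 by norm_num,
        Real.log_pow]
      norm_num
    rw [h1]
    linarith
  rw [Pool.Agent.Y1.KN.boundB, hwc] at hA
  split_ifs at hA with hcond
  · -- (1) the condition holds
    have h1 := caseOne d h e c w ℓ (Real.log (4 * d)) L N hw1 hℓ1 hlg0 hlg hL0 he heh hhd hc hc3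
      hcond hA
    rw [← hR] at h1
    exact h1.trans (hlow 32768 2 (by norm_num) (by norm_num) (by norm_num))
  -- (2) the condition fails
  push Not at hcond
  rcases le_or_gt (d : ℝ) (2 * h) with h2h | h2h
  · -- (2a)
    apply hsmall
    have hlogGc : Real.log Gc ≤ 2 * ℓ * ℓ := by
      have h1 := hlogG (Nat.log 2 d + 1) (hb _ (by
        have h3 : (1 - (h : ℝ) / d) ≤ 1 / 2 := by
          have : 1 / 2 ≤ (h : ℝ) / d := by
            rw [div_le_div_iff₀ (by norm_num) (by linarith)]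
            linarith
          linarith
        have h4 : 0 ≤ 1 - (h : ℝ) / d := by
          rw [sub_nonneg, div_le_one (by linarith)]
          exact hhd'
        have h5 : (d : ℝ) < 2 ^ (Nat.log 2 d + 1) := by
          exact_mod_cast Nat.lt_pow_succ_log_self (by norm_num) d
        calc (d : ℝ) * (1 - (h : ℝ) / d) ^ (Nat.log 2 d + 1)
            ≤ d * (1 / 2) ^ (Nat.log 2 d + 1) := by gcongr
          _ < 2 ^ (Nat.log 2 d + 1) * (1 / 2 : ℝ) ^ (Nat.log 2 d + 1) := by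
              apply mul_lt_mul_of_pos_right h5 (by positivity)
          _ = 1 := by rw [← mul_pow]; norm_num))
      have h2 : ((Nat.log 2 d + 1 : ℕ) : ℝ) ≤ 2 * ℓ := by
        have h3 : (2 : ℝ) ^ Nat.log 2 d ≤ d := by
          exact_mod_cast Nat.pow_log_le_self 2 (by omega)
        have h4 := Real.log_le_log (by positivity) h3
        rw [Real.log_pow] at h4
        have h5 : (Nat.log 2 d : ℝ) * (1 / 2) ≤ Nat.log 2 d * Real.log 2 := by
          gcongr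
          linarith
        push_cast
        linarith
      calc Real.log Gc ≤ ((Nat.log 2 d + 1 : ℕ) : ℝ) * ℓ := h1
        _ ≤ 2 * ℓ * ℓ := by gcongr
    have hL4 : L ≤ 4 * ℓ ^ 2 := by
      rw [hL']
      have h6 : ℓ ≤ ℓ ^ 2 := le_self_pow₀ hℓ1 (by norm_num)
      have h7 : 2 * ℓ * ℓ = 2 * ℓ ^ 2 := by ring
      linarith
    have h3 : 10 ^ 4 + 10 * L ≤ 10040 * ℓ ^ 2 := by
      have : 1 ≤ ℓ ^ 2 := one_le_pow₀ hℓ1
      linarith
    have h4 : 4 * w < (10040 * ℓ ^ 2) ^ 2 * (2 * ℓ) * d := by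
      calc 4 * w < (10 ^ 4 + 10 * L) ^ 2 * Real.log (4 * d) * d := hcond
        _ ≤ (10040 * ℓ ^ 2) ^ 2 * (2 * ℓ) * d := by gcongr
    have h5 : (m : ℝ) * g ≤ 4 * 10 ^ 8 * ℓ ^ 5 * g := by
      rw [← hw]
      have h6 : (10040 * ℓ ^ 2) ^ 2 * (2 * ℓ) * d ≤ 201603200 * ℓ ^ 5 * g := by
        calc (10040 * ℓ ^ 2) ^ 2 * (2 * ℓ) * d = 201603200 * ℓ ^ 5 * d := by ring
          _ ≤ 201603200 * ℓ ^ 5 * g := by gcongr
      have h7 : 0 ≤ ℓ ^ 5 * g := by positivity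
      linarith
    exact le_of_mul_le_mul_right h5 (by linarith)
  -- (2b)
  rcases le_or_gt (m : ℝ) (4 * 10 ^ 8 * ℓ ^ 5) with hms | hms
  · exact hsmall hms
  obtain ⟨ρ, hρ⟩ : ∃ ρ : ℝ, ρ = d / h := ⟨_, rfl⟩
  have hρ2 : 2 ≤ ρ := by
    rw [hρ, le_div_iff₀ (by linarith)]
    linarith
  have hlogGc : Real.log Gc ≤ ρ * ℓ * ℓ := by
    obtain ⟨b, hbd⟩ : ∃ b : ℕ, b = ⌊ρ * Real.log d⌋₊ + 1 := ⟨_, rfl⟩
    have hb1 : ρ * Real.log d < b := by
      rw [hbd]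
      push_cast
      exact Nat.lt_floor_add_one _
    have hb2 : (b : ℝ) ≤ ρ * Real.log d + 1 := by
      rw [hbd]
      push_cast
      have h1 := Nat.floor_le (show 0 ≤ ρ * Real.log d by positivity)
      linarith
    have hb3 : (d : ℝ) * (1 - (h : ℝ) / d) ^ b < 1 := by
      have h1 : 1 - (h : ℝ) / d ≤ Real.exp (-((h : ℝ) / d)) := by
        have h2 := Real.add_one_le_exp (-((h : ℝ) / d))
        linarith
      have h2 : 0 ≤ 1 - (h : ℝ) / d := by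
        rw [sub_nonneg, div_le_one (by linarith)]
        exact hhd'
      have h3 : (1 - (h : ℝ) / d) ^ b ≤ Real.exp (-(b * ((h : ℝ) / d))) := by
        calc (1 - (h : ℝ) / d) ^ b ≤ (Real.exp (-((h : ℝ) / d))) ^ b :=
              pow_le_pow_left₀ h2 h1 b
          _ = _ := by
              rw [← Real.exp_nat_mul]
              congr 1
              ring
      have h4 : Real.log d < b * ((h : ℝ) / d) := by
        have h5 : (h : ℝ) / d = 1 / ρ := by rw [hρ, one_div_div]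
        rw [h5, mul_one_div, lt_div_iff₀ (by linarith)]
        linarith
      calc (d : ℝ) * (1 - (h : ℝ) / d) ^ b ≤ d * Real.exp (-(b * ((h : ℝ) / d))) :=
            mul_le_mul_of_nonneg_left h3 (by linarith)
        _ = Real.exp (Real.log d - b * ((h : ℝ) / d)) := by
            rw [sub_eq_add_neg, Real.exp_add, Real.exp_log (by linarith)]
        _ < 1 := by
            rw [Real.exp_lt_one_iff]
            linarith
    have h1 := hlogG b (hb b hb3)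
    have h2 : (b : ℝ) ≤ ρ * ℓ := by
      calc (b : ℝ) ≤ ρ * Real.log d + 1 := hb2
        _ ≤ ρ * (ℓ - 1) + 1 := by gcongr
        _ ≤ ρ * ℓ := by linarith
    calc Real.log Gc ≤ b * ℓ := h1
      _ ≤ ρ * ℓ * ℓ := by gcongr
  have hL2 : L ≤ 2 * ρ * ℓ ^ 2 := by
    rw [hL']
    have h1 : ℓ ≤ ℓ ^ 2 := le_self_pow₀ hℓ1 (by norm_num)
    have h3 : ℓ ^ 2 ≤ ρ * ℓ ^ 2 := le_mul_of_one_le_left (by positivity) (by linarith)
    have h4 : ρ * ℓ * ℓ = ρ * ℓ ^ 2 := by ring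
    have h5 : 2 * ρ * ℓ ^ 2 = ρ * ℓ ^ 2 + ρ * ℓ ^ 2 := by ring
    linarith
  have hℓ2 : 1 ≤ ℓ ^ 2 := one_le_pow₀ hℓ1
  have hρℓ : 1 ≤ ρ * ℓ ^ 2 := one_le_mul_of_one_le_of_one_le (by linarith) hℓ2
  have hPe : 10 ^ 4 * ρ * ℓ ^ 2 = 10 ^ 4 * (ρ * ℓ ^ 2) := by ring
  have hLe : 2 * ρ * ℓ ^ 2 = 2 * (ρ * ℓ ^ 2) := by ring
  have hPP := hP (10 ^ 4 * ρ * ℓ ^ 2) (by rw [hPe]; linarith)
    (by rw [hPe]; rw [hLe] at hL2; linarith)
  have hε : √(2 * d / (Real.pi * w)) * (20000 * ℓ) ≤ 1 := by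
    have h1 : 2 * d / (Real.pi * w) ≤ (1 / (20000 * ℓ)) ^ 2 := by
      have hpi := Real.pi_gt_three
      rw [div_pow, one_pow, div_le_div_iff₀ (by positivity) (by positivity)]
      have h2 : ℓ ^ 2 ≤ ℓ ^ 5 := pow_le_pow_right₀ hℓ1 (by norm_num)
      have h3 : (d : ℝ) * (4 * 10 ^ 8 * ℓ ^ 5) ≤ w := by
        rw [hw]
        calc (d : ℝ) * (4 * 10 ^ 8 * ℓ ^ 5) ≤ g * m := by gcongr
          _ = m * g := by ring
      calc 2 * (d : ℝ) * (20000 * ℓ) ^ 2 = 2 * (d * (4 * 10 ^ 8 * ℓ ^ 2)) := by ring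
        _ ≤ 2 * (d * (4 * 10 ^ 8 * ℓ ^ 5)) := by gcongr
        _ ≤ 2 * w := by gcongr
        _ ≤ 1 * (Real.pi * w) := by
          have h6 : 3 * w ≤ Real.pi * w := mul_le_mul_of_nonneg_right hpi.le hw0.le
          linarith
    have h2 : √(2 * d / (Real.pi * w)) ≤ 1 / (20000 * ℓ) := by
      rw [Real.sqrt_le_left (by positivity)]
      exact h1
    calc √(2 * d / (Real.pi * w)) * (20000 * ℓ) ≤ 1 / (20000 * ℓ) * (20000 * ℓ) := by gcongr
      _ = 1 := by field_simp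
  have hN20 := pow_small h d ρ ℓ (√(2 * d / (Real.pi * w))) N hh (hh.trans hhd) hρ hρ2 hℓ1
    (Real.sqrt_nonneg _) hε hPP
  rcases le_or_gt (w * √w) ((20 : ℝ) ^ d) with h20 | h20
  · have h1 : N ≤ R := by
      calc N ≤ (1 / 20) ^ d := hN20
        _ = 1 / 20 ^ d := by rw [div_pow, one_pow]
        _ ≤ 1 / (w * √w) := one_div_le_one_div_of_le (by positivity) h20
        _ ≤ R := hRlow
    have h2 := hlow 1 0 (by norm_num) (by norm_num) (by norm_num)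
    rw [pow_zero, one_mul, one_mul] at h2
    exact h1.trans h2
  · -- `d ≤ ℓ`
    have hdℓ : (d : ℝ) ≤ ℓ := by
      have h1 := Real.log_lt_log (by positivity) h20
      rw [Real.log_pow, Real.log_mul (by positivity) (by positivity),
        Real.log_sqrt hw0.le] at h1
      have h2 : 2 ≤ Real.log 20 := by
        have h3 : (2 : ℝ) ^ 4 ≤ 20 := by norm_num
        have h4 := Real.log_le_log (by norm_num) h3
        rw [Real.log_pow] at h4
        push_cast at h4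
        linarith
      have h5 : (d : ℝ) * 2 ≤ d * Real.log 20 := mul_le_mul_of_nonneg_left h2 (by linarith)
      linarith
    have hρℓ' : ρ ≤ ℓ := by
      refine le_trans ?_ hdℓ
      rw [hρ]
      exact div_le_self (by linarith) hh'
    have hL3 : L ≤ 3 * ℓ ^ 3 := by
      calc L ≤ 2 * ρ * ℓ ^ 2 := hL2
        _ ≤ 2 * ℓ * ℓ ^ 2 := by gcongr
        _ ≤ 3 * ℓ ^ 3 := by
          have h9 : 0 ≤ ℓ ^ 3 := by positivity
          have h10 : 2 * ℓ * ℓ ^ 2 = 2 * ℓ ^ 3 := by ring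
          linarith
    have h3 : 10 ^ 4 + 10 * L ≤ 10030 * ℓ ^ 3 := by
      have : 1 ≤ ℓ ^ 3 := one_le_pow₀ hℓ1
      linarith
    have h4 : 4 * w < (10030 * ℓ ^ 3) ^ 2 * (2 * ℓ) * ℓ := by
      calc 4 * w < (10 ^ 4 + 10 * L) ^ 2 * Real.log (4 * d) * d := hcond
        _ ≤ (10030 * ℓ ^ 3) ^ 2 * (2 * ℓ) * ℓ := by gcongr
    have h5 : w ≤ (10 ^ 4 * ℓ ^ 4) ^ 2 := by
      have h6 : 0 ≤ ℓ ^ 8 := by positivity
      have h7 : (10030 * ℓ ^ 3) ^ 2 * (2 * ℓ) * ℓ = 201201800 * ℓ ^ 8 := by ring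
      have h8 : (10 ^ 4 * ℓ ^ 4) ^ 2 = 10 ^ 8 * ℓ ^ 8 := by ring
      rw [h7] at h4
      rw [h8]
      linarith
    have h6 : √w ≤ 10 ^ 4 * ℓ ^ 4 := by
      rw [Real.sqrt_le_left (by positivity)]
      exact h5
    have h7 : w * √w ≤ 10 ^ 12 * ℓ ^ 12 := by
      calc w * √w ≤ (10 ^ 4 * ℓ ^ 4) ^ 2 * (10 ^ 4 * ℓ ^ 4) := by gcongr
        _ = 10 ^ 12 * ℓ ^ 12 := by ring
    have h8 : 1 ≤ 10 ^ 12 * ℓ ^ 12 * R := by
      calc (1 : ℝ) = (w * √w) * (1 / (w * √w)) := by field_simp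
        _ ≤ 10 ^ 12 * ℓ ^ 12 * R := by gcongr
    exact hN.trans (h8.trans (hlow (10 ^ 12) 12 (by norm_num) le_rfl (by norm_num)))

end Pool.Agent.Q204.TE
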